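import Mathlib

set_option autoImplicit false
open Polynomial

namespace Pool.Agent.H840Z.OrthoImage

variable {K : Type*} [Field K]

/-- existence of the multiplier `s` with `σ f' s = q(f) f`, `q(0) ≠ 0`. -/
theorem exists_mult [IsAlgClosed K] [CharZero K] (σ f : K[X]) (hσ0 : σ ≠ 0)
    (hσ : ∀ r, σ.eval r = 0 → σ.derivative.eval r ≠ 0) (hf : 0 < f.natDegree) :
    ∃ s q : K[X], q.eval 0 ≠ 0 ∧ σ * f.derivative * s = aeval f q * f := by
  classical
  have hf0 : f ≠ 0 := by rintro rfl; simp at hf
  have hf' : f.derivative ≠ 0 := by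
    intro h
    have := Polynomial.derivative_eq_zero.1 h
    omega
  set P := σ * f.derivative with hP
  have hP0 : P ≠ 0 := mul_ne_zero hσ0 hf'
  set A := P.roots.filter (fun r => f.eval r = 0) with hA
  set B := P.roots.filter (fun r => ¬ f.eval r = 0) with hB
  have hAB : A + B = P.roots := Multiset.filter_add_not _ _
  have hsplit : P = C P.leadingCoeff * (P.roots.map fun a => X - C a).prod :=
    (IsAlgClosed.splits P).eq_prod_roots
  have hAle : A ≤ f.roots := by
    rw [Multiset.le_iff_count]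
    intro r
    by_cases hr : f.eval r = 0
    · rw [hA, Multiset.count_filter_of_pos (p := fun r => f.eval r = 0) hr, count_roots, count_roots,
        hP, rootMultiplicity_mul hP0, derivative_rootMultiplicity_of_root hr]
      have h1 : 0 < rootMultiplicity r f := (rootMultiplicity_pos hf0).2 hr
      have h2 : rootMultiplicity r σ ≤ 1 := by
        by_contra hcon
        push Not at hcon
        have := (one_lt_rootMultiplicity_iff_isRoot hσ0).1 hcon
        exact hσ r this.1 this.2
      omega
    · rw [hA, Multiset.count_filter_of_neg (p := fun r => f.eval r = 0) hr]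
      exact Nat.zero_le _
  have hAdvd : (A.map fun a => X - C a).prod ∣ f :=
    (Multiset.prod_dvd_prod_of_le (Multiset.map_le_map hAle)).trans (prod_multiset_X_sub_C_dvd f)
  set q : K[X] := (B.map fun r => X - C (f.eval r)).prod with hq
  have hqf : aeval f q = (B.map fun r => f - C (f.eval r)).prod := by
    rw [hq, map_multiset_prod, Multiset.map_map]
    congr 1
    apply Multiset.map_congr rfl
    intro r _
    simp
  have hBdvd : (B.map fun a => X - C a).prod ∣ aeval f q := by
    rw [hqf]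
    apply Multiset.prod_dvd_prod_of_dvd
    intro r _
    exact X_sub_C_dvd_sub_C_eval
  have hq0 : q.eval 0 ≠ 0 := by
    rw [hq, eval_multiset_prod, Multiset.map_map]
    apply Multiset.prod_ne_zero
    intro h
    rw [Multiset.mem_map] at h
    obtain ⟨r, hr, h⟩ := h
    rw [hB, Multiset.mem_filter] at hr
    apply hr.2
    simpa using h
  have hdvd : P ∣ aeval f q * f := by
    have hlc : IsUnit (C P.leadingCoeff) :=
      isUnit_C.2 (IsUnit.mk0 _ (leadingCoeff_ne_zero.2 hP0))
    rw [hsplit, hlc.mul_left_dvd, ← hAB, Multiset.map_add, Multiset.prod_add, mul_comm]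
    exact mul_dvd_mul hBdvd hAdvd
  obtain ⟨s, hs⟩ := hdvd
  exact ⟨s, q, hq0, hs.symm⟩

/-- local computation: at a root of `f` the product `σ s` has a simple zero. -/
theorem simple_zero [CharZero K] (σ f s Q : K[X]) (hf0 : f ≠ 0) (r : K) (hr : f.eval r = 0)
    (hQ : Q.eval r ≠ 0) (hs : σ * f.derivative * s = Q * f) :
    (σ * s).eval r = 0 ∧ (σ * s).derivative.eval r ≠ 0 := by
  obtain ⟨u, hu, hnd⟩ := exists_eq_pow_rootMultiplicity_mul_and_not_dvd f hf0 r
  have h1 : 0 < rootMultiplicity r f := (rootMultiplicity_pos hf0).2 hr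
  obtain ⟨k, hk⟩ : ∃ k, rootMultiplicity r f = k + 1 := ⟨rootMultiplicity r f - 1, by omega⟩
  rw [hk] at hu
  have hur : u.eval r ≠ 0 := fun h => hnd (dvd_iff_isRoot.2 h)
  have hder : f.derivative = (X - C r) ^ k * (C ((k : K) + 1) * u + (X - C r) * u.derivative) := by
    rw [hu]
    simp only [derivative_mul, derivative_X_sub_C_pow, map_add, map_natCast, map_one,
      Nat.add_sub_cancel, Nat.cast_add, Nat.cast_one]
    ring
  have hX : ((X - C r) ^ k : K[X]) ≠ 0 := pow_ne_zero _ (X_sub_C_ne_zero r)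
  have key : (σ * s) * (C ((k : K) + 1) * u + (X - C r) * u.derivative) = Q * (X - C r) * u := by
    apply mul_left_cancel₀ hX
    have : σ * f.derivative * s = Q * ((X - C r) ^ (k + 1) * u) := by rw [hs, ← hu]
    rw [hder] at this
    linear_combination this
  have hk1 : ((k : K) + 1) ≠ 0 := by exact_mod_cast Nat.succ_ne_zero k
  have e1 := congrArg (eval r) key
  simp only [eval_mul, eval_add, eval_C, eval_sub, eval_X, sub_self, zero_mul, add_zero,
    mul_zero] at e1
  have z1 : (σ * s).eval r = 0 := by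
    rw [eval_mul]
    rcases mul_eq_zero.1 e1 with h | h
    · exact h
    · exact absurd h (mul_ne_zero hk1 hur)
  refine ⟨z1, ?_⟩
  have e2 := congrArg (fun p => eval r (derivative p)) key
  generalize σ * s = τ at *
  simp only [derivative_mul, derivative_add, derivative_sub, derivative_X, derivative_C,
    eval_mul, eval_add, eval_C, eval_sub, eval_X, sub_self, zero_mul, add_zero,
    mul_zero, z1, eval_one, sub_zero, zero_add, mul_one] at e2
  intro h
  rw [h, zero_mul] at e2
  exact mul_ne_zero hQ hur e2.symm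

/-- the operator `g ↦ σ (s g)' + ρ (s g)` does not raise the order at `r`. -/
theorem order_pres [CharZero K] (σ ρ s : K[X]) (r : K)
    (hσ : σ.eval r = 0 → ∀ j : ℕ, (j : K) * σ.derivative.eval r + ρ.eval r ≠ 0)
    (h1 : (σ * s).eval r = 0) (h2 : (σ * s).derivative.eval r ≠ 0) (n : ℕ) (g : K[X])
    (hg : (X - C r) ^ n ∣ σ * derivative (s * g) + ρ * (s * g)) : (X - C r) ^ n ∣ g := by
  induction n with
  | zero => simp
  | succ j ih =>
    obtain ⟨v, hv⟩ := ih ((pow_dvd_pow _ (Nat.le_succ j)).trans hg)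
    obtain ⟨τ, hτ⟩ := dvd_iff_isRoot.2 h1
    have hX : ((X - C r) ^ j : K[X]) ≠ 0 := pow_ne_zero _ (X_sub_C_ne_zero r)
    have hexp : σ * derivative (s * g) + ρ * (s * g) =
        (X - C r) ^ j * (C (j : K) * τ * v + (σ * s.derivative + ρ * s) * v
          + (X - C r) * τ * v.derivative) := by
      have e : σ * derivative (s * g) + ρ * (s * g)
          = (σ * s) * g.derivative + (σ * s.derivative + ρ * s) * g := by
        simp only [derivative_mul]; ring
      rw [e, hτ, hv]
      rcases j with _ | j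
      · simp; ring
      · simp only [derivative_mul, derivative_X_sub_C_pow, map_add, map_natCast, map_one,
          Nat.add_sub_cancel, Nat.cast_add, Nat.cast_one]
        ring
    rw [hexp, pow_succ, mul_dvd_mul_iff_left hX, dvd_iff_isRoot] at hg
    have hτr : τ.eval r = (σ * s).derivative.eval r := by
      rw [hτ]; simp
    have hval : (j : K) * τ.eval r + (σ * s.derivative + ρ * s).eval r ≠ 0 := by
      rw [hτr]
      rw [derivative_mul] at h2 ⊢
      simp only [eval_add, eval_mul] at h1 h2 ⊢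
      by_cases h0 : σ.eval r = 0
      · have := hσ h0 j
        rw [h0] at h2 ⊢
        have hs : s.eval r ≠ 0 := by
          intro h; apply h2; rw [h]; ring
        intro hc
        apply mul_ne_zero this hs
        linear_combination hc
      · have hs : s.eval r = 0 := (mul_eq_zero.1 h1).resolve_left h0
        rw [hs] at h2 ⊢
        have hj : ((j : K) + 1) ≠ 0 := by exact_mod_cast Nat.succ_ne_zero j
        intro hc
        apply mul_ne_zero hj h2
        linear_combination hc
    have hvr : v.eval r = 0 := by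
      simp only [IsRoot.def, eval_add, eval_mul, eval_C, eval_sub, eval_X, sub_self,
        zero_mul, add_zero] at hg hval
      have : ((j : K) * τ.eval r + (σ.eval r * s.derivative.eval r + ρ.eval r * s.eval r))
          * v.eval r = 0 := by linear_combination hg
      exact (mul_eq_zero.1 this).resolve_left hval
    rw [hv, pow_succ]
    exact mul_dvd_mul_left _ (dvd_iff_isRoot.2 hvr)

theorem dvd_of_local [IsAlgClosed K] (p g : K[X]) (hp : p ≠ 0)
    (h : ∀ r, p.eval r = 0 → (X - C r) ^ (rootMultiplicity r p) ∣ g) : p ∣ g := by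
  classical
  by_cases hg : g = 0
  · simp [hg]
  apply (IsAlgClosed.splits p).dvd_of_roots_le_roots hp
  rw [Multiset.le_iff_count]
  intro r
  rw [count_roots, count_roots]
  by_cases hr : p.eval r = 0
  · exact (le_rootMultiplicity_iff hg).2 (h r hr)
  · rw [rootMultiplicity_eq_zero hr]; exact Nat.zero_le _

/-- chain condition for submodules over `K[f]`. -/
theorem chain_stab (f : K[X]) (hf : 0 < f.natDegree) (V : Submodule K K[X]) :
    ∃ n : ℕ, ∀ g : K[X], (∀ m : ℕ, f ^ m * (f ^ (n + 1) * g) ∈ V) →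
      ∀ m : ℕ, f ^ m * (f ^ n * g) ∈ V := by
  have hf0 : f ≠ 0 := by rintro rfl; simp at hf
  set R := Algebra.adjoin K {f} with hR
  have hfR : f ∈ R := Algebra.self_mem_adjoin_singleton K f
  have : IsNoetherianRing R := by
    apply isNoetherianRing_of_fg
    exact Subalgebra.fg_def.2 ⟨{f}, Set.finite_singleton f, rfl⟩
  have hint : IsIntegral R (X : K[X]) := by
    have hmon : ((f * C (leadingCoeff f)⁻¹).map (algebraMap K R)).Monic :=
      (monic_mul_leadingCoeff_inv hf0).map _
    apply IsIntegral.of_aeval_monic hmon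
    · rw [natDegree_map, natDegree_mul_leadingCoeff_inv f hf0]; omega
    · rw [aeval_map_algebraMap, aeval_X_left_apply]
      have : f * C (leadingCoeff f)⁻¹ ∈ R := R.mul_mem hfR (R.algebraMap_mem _)
      exact isIntegral_algebraMap (x := (⟨_, this⟩ : R))
  have : Module.Finite R K[X] := by
    have h1 : (Algebra.adjoin R {(X : K[X])}).toSubmodule.FG := hint.fg_adjoin_singleton
    have h2 : Algebra.adjoin R {(X : K[X])} = ⊤ := by
      rw [eq_top_iff]
      intro p _
      induction p using Polynomial.induction_on' with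
      | add p q hp hq => exact Subalgebra.add_mem _ (hp trivial) (hq trivial)
      | monomial n a =>
        rw [← C_mul_X_pow_eq_monomial]
        refine Subalgebra.mul_mem _ ?_
          (Subalgebra.pow_mem _ (Algebra.self_mem_adjoin_singleton R X) n)
        exact Subalgebra.algebraMap_mem _ (algebraMap K R a)
    rw [h2] at h1
    exact ⟨h1⟩
  have hmul : ∀ (q g : K[X]), (∀ m : ℕ, f ^ m * g ∈ V) → ∀ m : ℕ, f ^ m * (aeval f q * g) ∈ V := by
    intro q g hg m
    induction q using Polynomial.induction_on' with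
    | add p q hp hq => rw [map_add, add_mul, mul_add]; exact V.add_mem hp hq
    | monomial n a =>
      have : f ^ m * (aeval f (monomial n a) * g) = a • (f ^ (m + n) * g) := by
        rw [aeval_monomial, smul_eq_C_mul, algebraMap_eq]; ring
      rw [this]
      exact V.smul_mem _ (hg _)
  let Kn : ℕ → Submodule R K[X] := fun n =>
    { carrier := {g | ∀ m : ℕ, f ^ m * (f ^ n * g) ∈ V}
      add_mem' := by
        intro a b ha hb m
        rw [mul_add, mul_add]; exact V.add_mem (ha m) (hb m)
      zero_mem' := by intro m; simp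
      smul_mem' := by
        intro c g hg m
        obtain ⟨c, hc⟩ := c
        have hc' := hc
        rw [hR, Algebra.adjoin_singleton_eq_range_aeval] at hc'
        obtain ⟨q, hq⟩ := hc'
        have hq' : aeval f q = c := hq
        have : f ^ n * ((⟨c, hc⟩ : R) • g) = aeval f q * (f ^ n * g) := by
          rw [hq']
          change f ^ n * (c * g) = _
          ring
        rw [this]
        exact hmul q _ hg m }
  have hmono : Monotone Kn := by
    apply monotone_nat_of_le_succ
    intro n g hg m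
    have := hg (m + 1)
    have e : f ^ m * (f ^ (n + 1) * g) = f ^ (m + 1) * (f ^ n * g) := by ring
    rw [e]; exact this
  obtain ⟨n, hn⟩ := monotone_stabilizes_iff_noetherian.2 (inferInstance : IsNoetherian R K[X])
    ⟨Kn, hmono⟩
  refine ⟨n, fun g hg => ?_⟩
  have h := hn (n + 1) (Nat.le_succ n)
  have hg' : g ∈ Kn (n + 1) := hg
  have h' : Kn n = Kn (n + 1) := h
  rw [← h'] at hg'
  exact hg'

/-- Main theorem. -/
theorem one_mem [IsAlgClosed K] [CharZero K] (σ ρ f : K[X]) (hσ0 : σ ≠ 0)
    (hσ1 : ∀ r, σ.eval r = 0 → σ.derivative.eval r ≠ 0)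
    (hσ2 : ∀ r, σ.eval r = 0 → ∀ j : ℕ, (j : K) * σ.derivative.eval r + ρ.eval r ≠ 0)
    (V : Submodule K K[X]) (hV : ∀ g, σ * derivative g + ρ * g ∈ V) (hf : 0 < f.natDegree)
    (hm : ∀ m : ℕ, 1 ≤ m → f ^ m ∈ V) : (1 : K[X]) ∈ V := by
  have hf0 : f ≠ 0 := by rintro rfl; simp at hf
  obtain ⟨s, q, hq0, hs⟩ := exists_mult σ f hσ0 hσ1 hf
  have hmul : ∀ (q g : K[X]), (∀ m : ℕ, f ^ m * g ∈ V) → ∀ m : ℕ, f ^ m * (aeval f q * g) ∈ V := by
    intro q g hg m
    induction q using Polynomial.induction_on' with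
    | add p q hp hq => rw [map_add, add_mul, mul_add]; exact V.add_mem hp hq
    | monomial n a =>
      have : f ^ m * (aeval f (monomial n a) * g) = a • (f ^ (m + n) * g) := by
        rw [aeval_monomial, smul_eq_C_mul, algebraMap_eq]; ring
      rw [this]
      exact V.smul_mem _ (hg _)
  let N : Submodule K K[X] :=
    { carrier := {g | ∀ m : ℕ, f ^ m * g ∈ V}
      add_mem' := by
        intro a b ha hb m
        rw [mul_add]; exact V.add_mem (ha m) (hb m)
      zero_mem' := by intro m; simp
      smul_mem' := by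
        intro c g hg m
        rw [mul_smul_comm]; exact V.smul_mem _ (hg m) }
  let Ψ : K[X] →ₗ[K] K[X] :=
    { toFun := fun g => σ * derivative (s * g) + ρ * (s * g)
      map_add' := by intro a b; simp only [mul_add, derivative_add]; ring
      map_smul' := by
        intro c a
        simp only [mul_smul_comm, derivative_smul, smul_add, RingHom.id_apply] }
  have hΨ : ∀ g, Ψ g = σ * derivative (s * g) + ρ * (s * g) := fun g => rfl
  have hcomm : ∀ (m : ℕ) (g : K[X]),
      Ψ (f ^ m * g) = f ^ m * Ψ g + (m : K) • (f ^ m * (aeval f q * g)) := by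
    intro m g
    rcases m with _ | m
    · simp
    · rw [hΨ, hΨ, smul_eq_C_mul]
      have e : s * (f ^ (m + 1) * g) = f ^ (m + 1) * (s * g) := by ring
      rw [e, derivative_mul, derivative_pow]
      simp only [Nat.add_sub_cancel]
      linear_combination (C ((m + 1 : ℕ) : K) * f ^ m * g) * hs
  have hΨV : ∀ g, Ψ g ∈ V := fun g => hV _
  have hfN : f ∈ N := by
    intro m
    rw [← pow_succ]; exact hm _ (by omega)
  have hΨN : ∀ g ∈ N, Ψ g ∈ N := by
    intro g hg m
    have : f ^ m * Ψ g = Ψ (f ^ m * g) - (m : K) • (f ^ m * (aeval f q * g)) := by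
      rw [hcomm]; ring
    rw [this]
    exact V.sub_mem (hΨV _) (V.smul_mem _ (hmul q g hg m))
  have hΨ1 : Ψ 1 ∈ N := by
    intro m
    rcases m with _ | m
    · simpa using hΨV 1
    · have : f ^ (m + 1) * Ψ 1 = Ψ (f ^ (m + 1) * 1)
          - ((m + 1 : ℕ) : K) • (f ^ m * (aeval f q * f)) := by
        rw [hcomm]
        have : f ^ (m + 1) * (aeval f q * 1) = f ^ m * (aeval f q * f) := by ring
        rw [this]; ring
      rw [this]
      exact V.sub_mem (hΨV _) (V.smul_mem _ (hmul q f hfN m))
  have hinj : ∀ (n : ℕ) (g : K[X]), f ^ n ∣ Ψ g → f ^ n ∣ g := by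
    intro n g hg
    apply dvd_of_local _ _ (pow_ne_zero n hf0)
    intro r hr
    have hr' : f.eval r = 0 := by
      rw [eval_pow] at hr; exact eq_zero_of_pow_eq_zero hr
    have hQ : (aeval f q).eval r ≠ 0 := by
      have : (aeval f q).eval r = q.eval (f.eval r) := by
        rw [← comp_eq_aeval, eval_comp]
      rw [this, hr']; exact hq0
    obtain ⟨z1, z2⟩ := simple_zero σ f s _ hf0 r hr' hQ hs
    exact order_pres σ ρ s r (hσ2 r) z1 z2 _ g ((pow_rootMultiplicity_dvd _ r).trans hg)
  have happrox : ∀ n : ℕ, ∃ ν ∈ N, f ^ n ∣ 1 - ν := by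
    intro n
    let I : Submodule K K[X] := (Ideal.span {f ^ n}).restrictScalars K
    have hI : ∀ g, g ∈ I ↔ f ^ n ∣ g := fun g => Ideal.mem_span_singleton
    have : Module.Finite K (K[X] ⧸ I) := by
      have : Module.Finite K (K[X] ⧸ Ideal.span {f ^ n}) :=
        (AdjoinRoot.powerBasis (pow_ne_zero n hf0)).finite
      exact this
    have hII : I ≤ I.comap Ψ := by
      intro g hg
      obtain ⟨v, rfl⟩ := (hI g).1 hg
      rw [Submodule.mem_comap, hI, hcomm, smul_eq_C_mul]
      exact dvd_add (dvd_mul_right _ _) (Dvd.dvd.mul_left (dvd_mul_right _ _) _)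
    let Φ : (K[X] ⧸ I) →ₗ[K] (K[X] ⧸ I) := I.mapQ I Ψ hII
    have hΦ : ∀ g, Φ (I.mkQ g) = I.mkQ (Ψ g) := fun g => rfl
    have hΦinj : Function.Injective Φ := by
      rw [injective_iff_map_eq_zero]
      intro x hx
      obtain ⟨g, rfl⟩ := I.mkQ_surjective x
      rw [hΦ, Submodule.mkQ_apply, Submodule.Quotient.mk_eq_zero, hI] at hx
      rw [Submodule.mkQ_apply, Submodule.Quotient.mk_eq_zero, hI]
      exact hinj n g hx
    let N' := N.map I.mkQ
    have hle : N'.map Φ ≤ N' := by
      rintro _ ⟨_, ⟨g, hg, rfl⟩, rfl⟩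
      exact ⟨Ψ g, hΨN g hg, (hΦ g).symm⟩
    have heq : N'.map Φ = N' :=
      Submodule.eq_of_le_of_finrank_eq hle
        (Submodule.equivMapOfInjective Φ hΦinj N').finrank_eq.symm
    have hmem : I.mkQ (Ψ 1) ∈ N'.map Φ := by
      rw [heq]; exact ⟨Ψ 1, hΨ1, rfl⟩
    obtain ⟨_, ⟨ν, hν, rfl⟩, h⟩ := hmem
    rw [← hΦ] at h
    have h2 := hΦinj h
    refine ⟨ν, hν, ?_⟩
    rw [← hI, ← Submodule.Quotient.eq]
    exact h2.symm
  obtain ⟨n, hn⟩ := chain_stab f hf V
  obtain ⟨ν, hν, a, ha⟩ := happrox n
  have h1 : ∀ m : ℕ, f ^ m * (f ^ (n + 1) * a) ∈ V := by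
    intro m
    have : f ^ m * (f ^ (n + 1) * a) = f ^ m * f - f ^ (m + 1) * ν := by
      have : f ^ (n + 1) * a = f * (1 - ν) := by rw [ha]; ring
      rw [this]; ring
    rw [this]
    exact V.sub_mem (hfN m) (hν _)
  have h2 := hn a h1 0
  have h3 := hν 0
  rw [pow_zero, one_mul] at h2 h3
  have : (1 : K[X]) = f ^ n * a + ν := by rw [← ha]; ring
  rw [this]
  exact V.add_mem h2 h3

/-- If `1 ∈ V` and the operator raises degrees exactly by one then `V` is everything. -/
theorem eq_top_of_one_mem (s2 s1 s0 r1 r0 : K) (h : ∀ n : ℕ, (n : K) * s2 + r1 ≠ 0)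
    (V : Submodule K K[X])
    (hV : ∀ g : K[X], (C s2 * X ^ 2 + C s1 * X + C s0) * derivative g + (C r1 * X + C r0) * g ∈ V)
    (h1 : (1 : K[X]) ∈ V) (p : K[X]) : p ∈ V := by
  have hX : ∀ n : ℕ, (X : K[X]) ^ n ∈ V ∧ (X : K[X]) ^ (n + 1) ∈ V := by
    intro n
    induction n with
    | zero =>
      refine ⟨by simpa using h1, ?_⟩
      have h0 := h 0
      simp only [Nat.cast_zero, zero_mul, zero_add] at h0
      have e : (X : K[X]) ^ (0 + 1) = r1⁻¹ • (((C s2 * X ^ 2 + C s1 * X + C s0) * derivative 1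
          + (C r1 * X + C r0) * 1) - r0 • 1) := by
        rw [eq_comm, inv_smul_eq_iff₀ h0]
        simp only [smul_eq_C_mul, derivative_one]
        ring
      rw [e]
      exact V.smul_mem _ (V.sub_mem (hV 1) (V.smul_mem _ h1))
    | succ n ih =>
      refine ⟨ih.2, ?_⟩
      have h0 := h (n + 1)
      have e : (X : K[X]) ^ (n + 1 + 1) = (((n + 1 : ℕ) : K) * s2 + r1)⁻¹ •
          (((C s2 * X ^ 2 + C s1 * X + C s0) * derivative (X ^ (n + 1))
          + (C r1 * X + C r0) * X ^ (n + 1))
          - (((n + 1 : ℕ) : K) * s1 + r0) • X ^ (n + 1) - (((n + 1 : ℕ) : K) * s0) • X ^ n) := by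
        rw [eq_comm, inv_smul_eq_iff₀ h0]
        simp only [smul_eq_C_mul, derivative_X_pow, Nat.add_sub_cancel, map_add, map_mul]
        ring
      rw [e]
      exact V.smul_mem _ (V.sub_mem (V.sub_mem (hV _) (V.smul_mem _ ih.2)) (V.smul_mem _ ih.1))
  induction p using Polynomial.induction_on' with
  | add p q hp hq => exact V.add_mem hp hq
  | monomial n a =>
    rw [← C_mul_X_pow_eq_monomial, ← smul_eq_C_mul]
    exact V.smul_mem _ (hX n).1

/-- The Mathieu property for the polynomial image of `d/dt + ρ₀/σ`. -/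
theorem mathieu [IsAlgClosed K] [CharZero K] (σ ρ₀ : K[X]) (s2 s1 s0 r1 r0 : K)
    (hσ : σ = C s2 * X ^ 2 + C s1 * X + C s0) (hρ : derivative σ + ρ₀ = C r1 * X + C r0)
    (h : ∀ n : ℕ, (n : K) * s2 + r1 ≠ 0) (hσ0 : σ ≠ 0)
    (hσ1 : ∀ r, σ.eval r = 0 → σ.derivative.eval r ≠ 0)
    (hσ2 : ∀ r, σ.eval r = 0 → ∀ j : ℕ, ((j : K) + 1) * σ.derivative.eval r + ρ₀.eval r ≠ 0)
    (a b : K[X]) (hm : ∀ m : ℕ, 1 ≤ m → ∃ f : K[X], σ * a ^ m = σ * derivative f + ρ₀ * f) :
    ∃ N : ℕ, ∀ m : ℕ, N ≤ m → ∃ f : K[X], σ * (b * a ^ m) = σ * derivative f + ρ₀ * f := by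
  let V : Submodule K K[X] :=
    { carrier := {p | ∃ f : K[X], σ * p = σ * derivative f + ρ₀ * f}
      add_mem' := by
        rintro p q ⟨f, hf⟩ ⟨g, hg⟩
        exact ⟨f + g, by rw [derivative_add]; linear_combination hf + hg⟩
      zero_mem' := ⟨0, by simp⟩
      smul_mem' := by
        rintro c p ⟨f, hf⟩
        refine ⟨c • f, ?_⟩
        rw [derivative_smul, mul_smul_comm, mul_smul_comm, mul_smul_comm, hf, smul_add] }
  have hV : ∀ g : K[X], σ * derivative g + (derivative σ + ρ₀) * g ∈ V := by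
    intro g
    exact ⟨σ * g, by rw [derivative_mul]; ring⟩
  by_cases ha : a = 0
  · refine ⟨1, fun m hm1 => ⟨0, ?_⟩⟩
    rw [ha, zero_pow (by omega)]; simp
  have h1 : (1 : K[X]) ∈ V := by
    by_cases hd : a.natDegree = 0
    · have hc := eq_C_of_natDegree_eq_zero hd
      have hc0 : a.coeff 0 ≠ 0 := by
        intro h0; apply ha; rw [hc, h0]; simp
      have haV : a ∈ V := by
        have := hm 1 le_rfl
        rw [pow_one] at this
        exact this
      have : (1 : K[X]) = (a.coeff 0)⁻¹ • a := by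
        rw [eq_comm, inv_smul_eq_iff₀ hc0, smul_eq_C_mul, mul_one]; exact hc
      rw [this]; exact V.smul_mem _ haV
    · refine one_mem σ (derivative σ + ρ₀) a hσ0 hσ1 ?_ V hV (by omega) hm
      intro r hr j
      have := hσ2 r hr j
      rw [eval_add]
      intro hc; apply this; linear_combination hc
  refine ⟨0, fun m _ => ?_⟩
  refine eq_top_of_one_mem s2 s1 s0 r1 r0 h V ?_ h1 _
  intro g
  rw [← hσ, ← hρ]; exact hV g

end Pool.Agent.H840Z.OrthoImage
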